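import Pool.Agent.helper88.GR.Spec

/-!
# Project gr: (MP_af9036_an x25): module CRT: the loss at the critical value
-/

set_option autoImplicit false

open Complex Metric Set Filter Topology MeasureTheory
open MPS (om)
open PPS (pre TT fd)
open XPS (Df er dens tau)

noncomputable section

namespace GR

lemma CRT_om_pow (n : ℕ) (hn : 2 ≤ n) : om n ^ n = 1 := by
  have h0 : (n : ℂ) ≠ 0 := by exact_mod_cast (by omega : n ≠ 0)
  unfold om
  rw [← Complex.exp_nat_mul]
  rw [mul_div_cancel₀ _ h0]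
  exact Complex.exp_two_pi_mul_I

lemma CRT_om_norm (n : ℕ) (hn : 2 ≤ n) : ‖om n‖ = 1 := by
  have h := congrArg norm (CRT_om_pow n hn)
  rw [norm_pow, norm_one] at h
  exact (pow_eq_one_iff_of_nonneg (norm_nonneg _) (by omega)).mp h

/-- the identity for the deficit at `y ^ n + c`, `y ≠ 0`. -/
lemma CRT_point (hPREL : PREL_stmt) (hNAT : NAT_stmt) (n : ℕ) (c : ℂ) (b : ℂ → ℂ) (hn : 2 ≤ n) (y : ℂ) (hy : y ≠ 0) :
    Df (fp n c) b (y ^ n + c) * ‖fd (fp n c) y‖ ^ 2 =
      ∑ k ∈ Finset.range n, ‖b (om n ^ k * y)‖ - ‖∑ k ∈ Finset.range n, om n ^ (2 * k) * b (om n ^ k * y)‖ := by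
  obtain ⟨-, hfd, -⟩ := hNAT n c hn
  have hpre := hPREL n c y hn hy
  have hω := CRT_om_pow n hn
  have hω1 := CRT_om_norm n hn
  have hn0 : (n : ℂ) ≠ 0 := by exact_mod_cast (by omega : n ≠ 0)
  have hω0 : om n ≠ 0 := by
    intro h
    rw [h, norm_zero] at hω1
    exact zero_ne_one hω1
  have hfy : fd (fp n c) y ≠ 0 := by
    rw [hfd]
    exact mul_ne_zero hn0 (pow_ne_zero _ hy)
  have hfyn : 0 < ‖fd (fp n c) y‖ := norm_pos_iff.mpr hfy
  have h1 : ∀ k : ℕ, ‖fd (fp n c) (om n ^ k * y)‖ = ‖fd (fp n c) y‖ := by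
    intro k
    rw [hfd, hfd, norm_mul, norm_mul, norm_pow, norm_pow, norm_mul, norm_pow, hω1, one_pow, one_mul]
  have h2 : ∀ k : ℕ, b (om n ^ k * y) / fd (fp n c) (om n ^ k * y) ^ 2 =
      (om n ^ (2 * k) * b (om n ^ k * y)) / fd (fp n c) y ^ 2 := by
    intro k
    have h3 : om n ^ (2 * k) * fd (fp n c) (om n ^ k * y) ^ 2 = fd (fp n c) y ^ 2 := by
      rw [hfd, hfd, mul_pow (om n ^ k) y, ← pow_mul]
      have h4 : om n ^ (2 * k) * ((n : ℂ) * (om n ^ (k * (n - 1)) * y ^ (n - 1))) ^ 2 =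
          (om n ^ (2 * k) * om n ^ (k * (n - 1) * 2)) * ((n : ℂ) * y ^ (n - 1)) ^ 2 := by
        rw [pow_mul (om n) (k * (n - 1)) 2]
        ring
      rw [h4, ← pow_add]
      have h5 : 2 * k + k * (n - 1) * 2 = n * (2 * k) := by
        obtain ⟨m, rfl⟩ : ∃ m, n = m + 1 := ⟨n - 1, by omega⟩
        rw [Nat.add_sub_cancel]
        ring
      rw [h5, pow_mul, hω, one_pow, one_mul]
    have h6 : fd (fp n c) (om n ^ k * y) ≠ 0 := by
      intro h
      have := h1 k
      rw [h, norm_zero] at this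
      exact hfyn.ne this
    rw [div_eq_div_iff (pow_ne_zero _ h6) (pow_ne_zero _ hfy), ← h3]
    ring
  have hS : ((pre (fp n c) (y ^ n + c)).map fun y => ‖b y‖ / ‖fd (fp n c) y‖ ^ 2).sum =
      (∑ k ∈ Finset.range n, ‖b (om n ^ k * y)‖) / ‖fd (fp n c) y‖ ^ 2 := by
    rw [hpre, Multiset.map_map, Finset.sum_div]
    show (Multiset.map _ (Multiset.range n)).sum = _
    rw [Finset.sum_eq_multiset_sum, Finset.range_val]
    refine congrArg Multiset.sum (Multiset.map_congr rfl ?_)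
    intro k _
    show ‖b (om n ^ k * y)‖ / ‖fd (fp n c) (om n ^ k * y)‖ ^ 2 = _
    rw [h1]
  have hT : TT (fp n c) b (y ^ n + c) =
      (∑ k ∈ Finset.range n, om n ^ (2 * k) * b (om n ^ k * y)) / fd (fp n c) y ^ 2 := by
    unfold TT
    rw [hpre, Multiset.map_map, Finset.sum_div]
    rw [Finset.sum_eq_multiset_sum, Finset.range_val]
    refine congrArg Multiset.sum (Multiset.map_congr rfl ?_)
    intro k _
    exact h2 k
  unfold Df
  rw [hS, hT, norm_div, norm_pow, ← sub_div, div_mul_cancel₀]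
  positivity

theorem CRT (hPREL : PREL_stmt) (hNAT : NAT_stmt) (hMCV : PPS.MCV_stmt) (hPRB : PPS.PRB_stmt) : CRT_stmt := by
  intro n c b E r hn hc hb hr hr1 hDf hE
  obtain ⟨hev, hfd, hdeg, -⟩ := hNAT n c hn
  set f := fp n c with hf
  have hd1 : 1 ≤ f.natDegree := by rw [hdeg]; omega
  set F : ℂ → ENNReal := fun y => ENNReal.ofReal (Df f b (y ^ n + c) * ‖fd f y‖ ^ 2) with hF
  have hFm : Measurable F := by
    refine ENNReal.measurable_ofReal.comp ?_
    refine Measurable.mul (hDf.comp (by fun_prop)) ?_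
    have : Measurable (fd f) := by
      have h : fd f = fun z => (n : ℂ) * z ^ (n - 1) := funext hfd
      rw [h]
      fun_prop
    exact (this.norm).pow_const 2
  have hcv := hMCV f hd1 F (ball c (r ^ n)) hFm measurableSet_ball
  have hset : {y : ℂ | f.eval y ∈ ball c (r ^ n)} = ball (0 : ℂ) r := by
    ext y
    rw [Set.mem_setOf_eq, hev, mem_ball, dist_eq_norm, add_sub_cancel_right, norm_pow, mem_ball, dist_zero_right]
    exact pow_lt_pow_iff_left₀ (norm_nonneg _) hr.le (by omega)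
  rw [hset] at hcv
  have hK : ball c (r ^ n) ⊆ ball (0 : ℂ) 4 := by
    intro z hz
    rw [mem_ball, dist_eq_norm] at hz
    rw [mem_ball, dist_zero_right]
    have h1 : r ^ n ≤ 1 := pow_le_one₀ hr.le hr1
    have h2 : ‖z‖ ≤ ‖z - c‖ + ‖c‖ := by
      have := norm_add_le (z - c) c
      rwa [sub_add_cancel] at this
    linarith
  -- the pointwise bound on the base
  have hpt : ∀ z : ℂ, ((pre f z).map fun y => F y / ENNReal.ofReal (‖fd f y‖ ^ 2)).sum ≤
      n * ENNReal.ofReal (Df f b z) := by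
    intro z
    obtain ⟨hmem, hcard, -⟩ := hPRB f hd1
    have h1 : ∀ x ∈ (pre f z).map (fun y => F y / ENNReal.ofReal (‖fd f y‖ ^ 2)), x ≤ ENNReal.ofReal (Df f b z) := by
      intro x hx
      obtain ⟨y, hy, rfl⟩ := Multiset.mem_map.mp hx
      have hy' := (hmem z y).mp hy
      rw [hev] at hy'
      show ENNReal.ofReal (Df f b (y ^ n + c) * ‖fd f y‖ ^ 2) / ENNReal.ofReal (‖fd f y‖ ^ 2) ≤ _
      rw [hy']
      rcases eq_or_ne (fd f y) 0 with h | h
      · rw [h]
        simp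
      · have h3 : 0 < ‖fd f y‖ ^ 2 := by positivity
        rw [← ENNReal.ofReal_div_of_pos h3]
        rw [mul_div_cancel_right₀ _ h3.ne']
    have h2 := Multiset.sum_le_card_nsmul _ _ h1
    rw [Multiset.card_map, hcard, hdeg, nsmul_eq_mul] at h2
    exact h2
  have hlhs : ∫⁻ y in ball (0 : ℂ) r, ENNReal.ofReal (∑ k ∈ Finset.range n, ‖b (om n ^ k * y)‖ -
      ‖∑ k ∈ Finset.range n, om n ^ (2 * k) * b (om n ^ k * y)‖) = ∫⁻ y in ball (0 : ℂ) r, F y := by
    refine lintegral_congr_ae ?_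
    have h0 : ∀ᵐ y : ℂ ∂(volume.restrict (ball (0 : ℂ) r)), y ≠ 0 := by
      refine ae_restrict_of_ae ?_
      rw [ae_iff]
      simp
    filter_upwards [h0] with y hy
    rw [hF]
    show _ = ENNReal.ofReal (Df f b (y ^ n + c) * ‖fd f y‖ ^ 2)
    rw [CRT_point hPREL hNAT n c b hn y hy]
  rw [hlhs, ← hcv]
  calc ∫⁻ z in ball c (r ^ n), ((pre f z).map fun y => F y / ENNReal.ofReal (‖fd f y‖ ^ 2)).sum
      ≤ ∫⁻ z in ball c (r ^ n), n * ENNReal.ofReal (Df f b z) := lintegral_mono fun z => hpt z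
    _ = n * ∫⁻ z in ball c (r ^ n), ENNReal.ofReal (Df f b z) :=
        lintegral_const_mul _ (ENNReal.measurable_ofReal.comp hDf)
    _ ≤ n * ∫⁻ z in ball (0 : ℂ) 4, ENNReal.ofReal (Df f b z + 2 * ‖er f b z‖) := by
        refine mul_le_mul_right ?_ _
        refine (lintegral_mono_set hK).trans (lintegral_mono fun z => ?_)
        refine ENNReal.ofReal_le_ofReal ?_
        have := norm_nonneg (er f b z)
        linarith
    _ ≤ n * ENNReal.ofReal E := mul_le_mul_right hE _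

end GR
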